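import Mathlib

set_option autoImplicit false

/-!
# Project HM, job INV: truncation of a product (over Mathlib only)
-/

namespace Pool.Agent.V5helper24.HM

open Finset Complex MeasureTheory
open scoped Real

theorem norm_one_sub_le (x : ℂ) : ‖1 - x‖ ≤ Real.exp (-x.re + ‖x‖ ^ 2 / 2) := by
  have h1 : ‖1 - x‖ ^ 2 ≤ Real.exp (-x.re + ‖x‖ ^ 2 / 2) ^ 2 := by
    rw [← Real.exp_nat_mul]
    have h2 : ‖1 - x‖ ^ 2 = (-(2 * x.re) + ‖x‖ ^ 2) + 1 := by
      rw [Complex.sq_norm, Complex.sq_norm, Complex.normSq_apply, Complex.normSq_apply]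
      simp only [sub_re, one_re, sub_im, one_im]
      ring
    rw [h2]
    refine (Real.add_one_le_exp _).trans_eq ?_
    congr 1
    push_cast
    ring
  exact (pow_le_pow_iff_left₀ (norm_nonneg _) (Real.exp_pos _).le two_ne_zero).1 h1

/-- Cauchy's estimate for the elementary symmetric functions -/
theorem cau {ι : Type*} (P : Finset ι) (u : ι → ℂ) (M : ℝ)
    (hM : ∀ w : ℂ, ‖w‖ = 2 → ‖∏ p ∈ P, (1 - w * u p)‖ ≤ M) (k : ℕ) :
    ‖∑ S ∈ P.powersetCard k, ∏ p ∈ S, (-u p)‖ ≤ M * (1 / 2) ^ k := by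
  classical
  have hexp : ∀ w : ℂ, ∏ p ∈ P, (1 - w * u p) = ∑ S ∈ P.powerset, w ^ S.card * ∏ p ∈ S, (-u p) := by
    intro w
    have e : ∀ p, 1 - w * u p = 1 + w * (-u p) := fun p => by ring
    rw [prod_congr rfl fun p _ => e p, prod_one_add]
    refine sum_congr rfl fun S _ => ?_
    rw [prod_mul_distrib, prod_const]
  have h0 : ∀ w : ℂ, w ∈ Metric.sphere (0 : ℂ) 2 → w ≠ 0 := by
    intro w hw h
    rw [h, mem_sphere_iff_norm, sub_self, norm_zero] at hw
    norm_num at hw
  have hone : ∀ n : ℤ, ∮ w in C(0, 2), (w : ℂ) ^ n = if n = -1 then 2 * π * I else 0 := by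
    intro n
    split_ifs with hn
    · rw [hn]
      have := circleIntegral.integral_sub_center_inv (0 : ℂ) (R := 2) two_ne_zero
      simpa using this
    · have := circleIntegral.integral_sub_zpow_of_ne hn (0 : ℂ) 0 2
      simpa using this
  have hint : (∮ w in C(0, 2), (∏ p ∈ P, (1 - w * u p)) * w ^ (-(k : ℤ) - 1)) =
      2 * π * I * ∑ S ∈ P.powersetCard k, ∏ p ∈ S, (-u p) := by
    have e1 : Set.EqOn (fun w : ℂ => (∏ p ∈ P, (1 - w * u p)) * w ^ (-(k : ℤ) - 1))
        (fun w => ∑ S ∈ P.powerset, (∏ p ∈ S, (-u p)) * w ^ ((S.card : ℤ) - k - 1))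
        (Metric.sphere (0 : ℂ) 2) := by
      intro w hw
      have hw0 := h0 w hw
      simp only
      rw [hexp, sum_mul]
      refine sum_congr rfl fun S _ => ?_
      have e2 : (w : ℂ) ^ ((S.card : ℤ) - k - 1) = w ^ S.card * w ^ (-(k : ℤ) - 1) := by
        rw [← zpow_natCast, ← zpow_add₀ hw0]
        congr 1
        ring
      rw [e2]
      ring
    rw [circleIntegral.integral_congr (by norm_num) e1, circleIntegral.integral_fun_sum]
    · have e3 : ∀ S ∈ P.powerset,
          (∮ w in C(0, 2), (∏ p ∈ S, (-u p)) * w ^ ((S.card : ℤ) - k - 1)) =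
          if S.card = k then (2 * π * I) * ∏ p ∈ S, (-u p) else 0 := by
        intro S _
        rw [circleIntegral.integral_const_mul, hone]
        by_cases hS : S.card = k
        · rw [if_pos hS, if_pos (by rw [hS]; ring), mul_comm]
        · rw [if_neg hS, if_neg (by omega), mul_zero]
      rw [sum_congr rfl e3, ← sum_filter, ← mul_sum]
      congr 1
      refine sum_congr ?_ fun _ _ => rfl
      ext S
      rw [mem_filter, mem_powerset, mem_powersetCard]
    · intro S _
      refine ContinuousOn.circleIntegrable (by norm_num) ?_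
      refine continuousOn_const.mul fun w hw => ?_
      exact (continuousAt_zpow₀ w _ (Or.inl (h0 w hw))).continuousWithinAt
  have hb := circleIntegral.norm_two_pi_i_inv_smul_integral_le_of_norm_le_const
    (f := fun w : ℂ => (∏ p ∈ P, (1 - w * u p)) * w ^ (-(k : ℤ) - 1)) (c := 0) (R := 2)
    (C := M * (1 / 2) ^ (k + 1)) (by norm_num) (by
      intro w hw
      have hw2 : ‖w‖ = 2 := by simpa using hw
      rw [norm_mul, norm_zpow, hw2]
      have e4 : (2 : ℝ) ^ (-(k : ℤ) - 1) = (1 / 2) ^ (k + 1) := by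
        rw [one_div, inv_pow, ← zpow_natCast, ← zpow_neg]
        congr 1
        push_cast
        ring
      rw [e4]
      exact mul_le_mul_of_nonneg_right (hM w hw2) (by positivity))
  rw [hint] at hb
  have e5 : ((2 * π * I : ℂ)⁻¹) • (2 * π * I * ∑ S ∈ P.powersetCard k, ∏ p ∈ S, (-u p)) =
      ∑ S ∈ P.powersetCard k, ∏ p ∈ S, (-u p) := by
    rw [smul_eq_mul, ← mul_assoc, inv_mul_cancel₀ two_pi_I_ne_zero, one_mul]
  rw [e5] at hb
  refine hb.trans_eq ?_
  rw [pow_succ]
  ring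

theorem geo (K N : ℕ) : ∑ j ∈ range N, (if K < j then ((1 : ℝ) / 2) ^ j else 0) ≤ (1 / 2) ^ K := by
  rcases le_or_gt N (K + 1) with h | h
  · rw [sum_eq_zero fun j hj => if_neg (by rw [mem_range] at hj; omega)]
    positivity
  · obtain ⟨i, rfl⟩ := Nat.exists_eq_add_of_lt h
    have key : ∀ i : ℕ, ∑ j ∈ range (K + 1 + i), (if K < j then ((1 : ℝ) / 2) ^ j else 0) =
        (1 / 2) ^ K - (1 / 2) ^ (K + i) := by
      intro i
      induction i with
      | zero =>
        rw [add_zero, add_zero, sub_self]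
        exact sum_eq_zero fun j hj => if_neg (by rw [mem_range] at hj; omega)
      | succ i ih =>
        rw [← add_assoc (K + 1) i 1, sum_range_succ, ih, if_pos (by omega)]
        have e1 : (1 / 2 : ℝ) ^ (K + 1 + i) = (1 / 2) ^ (K + i) * (1 / 2) := by
          rw [← pow_succ]; congr 1; omega
        have e2 : (1 / 2 : ℝ) ^ (K + (i + 1)) = (1 / 2) ^ (K + i) * (1 / 2) := by
          rw [← pow_succ]; congr 1
        rw [e1, e2]
        ring
    have := key (i + 1)
    rw [← add_assoc] at this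
    rw [this]
    have : (0 : ℝ) ≤ (1 / 2) ^ (K + (i + 1)) := by positivity
    linarith

/-- truncation of a product -/
theorem trunc {ι : Type*} (P : Finset ι) (u : ι → ℂ) (M : ℝ)
    (hM : ∀ w : ℂ, ‖w‖ = 2 → ‖∏ p ∈ P, (1 - w * u p)‖ ≤ M) (K : ℕ) :
    ‖∑ S ∈ P.powerset.filter (fun S => S.card ≤ K), ∏ p ∈ S, (-u p) - ∏ p ∈ P, (1 - u p)‖ ≤
      (1 / 2) ^ K * M := by
  classical
  have hM0 : 0 ≤ M := (norm_nonneg _).trans (hM 2 (by norm_num))
  have h1 : ∏ p ∈ P, (1 - u p) = ∑ S ∈ P.powerset, ∏ p ∈ S, (-u p) := by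
    rw [← prod_one_add]
    exact prod_congr rfl fun p _ => by ring
  have h2 : ∑ S ∈ P.powerset.filter (fun S => S.card ≤ K), ∏ p ∈ S, (-u p) - ∏ p ∈ P, (1 - u p) =
      -∑ j ∈ range (P.card + 1), (if K < j then ∑ S ∈ P.powersetCard j, ∏ p ∈ S, (-u p) else 0) := by
    rw [h1, sum_filter, ← sum_sub_distrib, sum_powerset, ← sum_neg_distrib]
    refine sum_congr rfl fun j _ => ?_
    split_ifs with hj
    · rw [← sum_neg_distrib]
      refine sum_congr rfl fun S hS => ?_
      rw [mem_powersetCard] at hS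
      rw [if_neg (by omega), zero_sub]
    · rw [neg_zero]
      refine sum_eq_zero fun S hS => ?_
      rw [mem_powersetCard] at hS
      rw [if_pos (by omega), sub_self]
  rw [h2, norm_neg]
  refine (norm_sum_le _ _).trans ?_
  have h3 : ∀ j ∈ range (P.card + 1),
      ‖(if K < j then ∑ S ∈ P.powersetCard j, ∏ p ∈ S, (-u p) else 0)‖ ≤
      M * (if K < j then ((1 : ℝ) / 2) ^ j else 0) := by
    intro j _
    split_ifs
    · exact cau P u M hM j
    · simp
  refine (sum_le_sum h3).trans ?_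
  rw [← mul_sum, mul_comm]
  exact mul_le_mul_of_nonneg_right (geo K _) hM0

/-- bound of the product on the circle of radius `2` -/
theorem prod_le {ι : Type*} (P : Finset ι) (u : ι → ℂ) (a v : ℝ) (ha : ‖∑ p ∈ P, u p‖ ≤ a)
    (hv : ∑ p ∈ P, ‖u p‖ ^ 2 ≤ v) (w : ℂ) (hw : ‖w‖ = 2) :
    ‖∏ p ∈ P, (1 - w * u p)‖ ≤ Real.exp (2 * a + 2 * v) := by
  rw [norm_prod]
  have h1 : ∀ p ∈ P, ‖1 - w * u p‖ ≤ Real.exp (-(w * u p).re + 2 * ‖u p‖ ^ 2) := by
    intro p _
    refine (norm_one_sub_le _).trans_eq ?_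
    rw [norm_mul, hw]
    congr 1
    ring
  refine (prod_le_prod (fun p _ => norm_nonneg _) h1).trans ?_
  rw [← Real.exp_sum, Real.exp_le_exp, sum_add_distrib, sum_neg_distrib, ← mul_sum, ← re_sum,
    ← mul_sum]
  have h2 : -(w * ∑ p ∈ P, u p).re ≤ 2 * a := by
    have h3 := abs_re_le_norm (w * ∑ p ∈ P, u p)
    rw [norm_mul, hw] at h3
    have h4 := (abs_le.1 h3).1
    linarith
  linarith

end Pool.Agent.V5helper24.HM
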