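import Pool.Agent.N748.HM.Stm
import Pool.Agent.V5helper24.HM.INV0

set_option autoImplicit false

/-!
# Project HM, job INV: the truncated inverse Euler product
-/

namespace Pool.Agent.V5helper24.HM

open Finset Filter MeasureTheory MonoidAlgebra Topology Complex
open Pool.Agent.N748.GC Pool.Agent.N748.HM

theorem ec_MB (z : ℕ) (y : ℝ) (K : ℕ) (s : ℂ) : ec s (MB z y K) =
    ∑ S ∈ (PP z y).powerset.filter (fun S => S.card ≤ K), ∏ p ∈ S, (-(p:ℂ) ^ (-s)) := by
  unfold MB
  rw [map_sum]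
  refine sum_congr rfl fun S _ => ?_
  have h1 : ec s (single (∏ p ∈ S, p) ((-1 : ℂ) ^ S.card)) =
      (-1 : ℂ) ^ S.card * hsc s (∏ p ∈ S, p) := by
    unfold ec
    rw [MonoidAlgebra.lift_single, smul_eq_mul]
  have h2 : ∀ p ∈ S, -(p:ℂ) ^ (-s) = (-1) * hsc s p := by
    intro p _
    rw [neg_one_mul]
    rfl
  rw [h1, map_prod, prod_congr rfl h2, prod_mul_distrib, prod_const]

/-- **INV** -/
theorem t_INV : S_INV := by
  intro z y K s a v _ hs ha hv
  have hpr : ∀ p ∈ PP z y, p.Prime := fun p hp => (mem_filter.1 hp).2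
  have h1 : ∑ p ∈ PP z y, ‖(p:ℂ) ^ (-s)‖ ^ 2 ≤ v := by
    refine le_trans (sum_le_sum fun p hp => ?_) hv
    have hp0 : 0 < p := (hpr p hp).pos
    have hp1 : (1:ℝ) ≤ p := by exact_mod_cast hp0
    rw [Complex.norm_natCast_cpow_of_pos hp0, neg_re, ← Real.rpow_natCast,
      ← Real.rpow_mul (by positivity), one_div, ← Real.rpow_neg_one]
    refine Real.rpow_le_rpow_of_exponent_le hp1 ?_
    push_cast
    linarith
  have hv0 : 0 ≤ v := (sum_nonneg fun p _ => by positivity).trans h1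
  rw [ec_MB]
  refine (trunc (PP z y) (fun p => (p:ℂ) ^ (-s)) (Real.exp (2 * a + 2 * v))
    (prod_le (PP z y) (fun p => (p:ℂ) ^ (-s)) a v ha h1) K).trans ?_
  refine mul_le_mul_of_nonneg_left (Real.exp_le_exp.2 (by linarith)) (by positivity)

end Pool.Agent.V5helper24.HM
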