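import Pool.Agent.N748.GC.LAM
import Pool.Agent.V5helper51.HM.Stm2

set_option autoImplicit false

/-!
# Project HM, job POS: the total mass of the limit is almost surely positive (0-1 law)
-/

namespace Pool.Agent.V5helper24.HM.POS

open MeasureTheory Filter Topology Complex
open Pool.Agent.N748.GC

/-! ### comparison of the Euler products at two points of the model -/


lemma norm_cpow_le {p : ℕ} (hp : p.Prime) (u : ℝ) : ‖((p:ℕ):ℂ) ^ (-(1 / 2 + u * I) : ℂ)‖ ≤ 3 / 4 := by
  rw [Complex.norm_natCast_cpow_of_pos hp.pos]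
  have e : (-(1 / 2 + u * I) : ℂ).re = -(1 / 2) := by simp
  rw [e]
  have h2 : (2:ℝ) ≤ p := by exact_mod_cast hp.two_le
  have h1 : (p:ℝ) ^ (-(1 / 2 : ℝ)) ≤ (2:ℝ) ^ (-(1 / 2 : ℝ)) :=
    Real.rpow_le_rpow_of_nonpos (by norm_num) h2 (by norm_num)
  refine h1.trans ?_
  rw [Real.rpow_neg (by norm_num), ← Real.sqrt_eq_rpow, inv_le_comm₀ (by positivity) (by norm_num)]
  rw [show ((3:ℝ) / 4)⁻¹ = 4 / 3 by norm_num]
  apply Real.le_sqrt_of_sq_le
  norm_num

/-- one factor -/
lemma fac_le {p : ℕ} (hp : p.Prime) (u : ℝ) (x y : UnitAddCircle) :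
    ‖(1 - (fourier 1 x : ℂ) * ((p:ℕ):ℂ) ^ (-(1 / 2 + u * I)))⁻¹‖ ≤
      8 * ‖(1 - (fourier 1 y : ℂ) * ((p:ℕ):ℂ) ^ (-(1 / 2 + u * I)))⁻¹‖ := by
  have h := norm_cpow_le hp u
  set c : ℂ := ((p:ℕ):ℂ) ^ (-(1 / 2 + u * I)) with hc
  have hx : ‖(fourier 1 x : ℂ) * c‖ ≤ 3 / 4 := by
    rw [norm_mul, show ‖(fourier 1 x : ℂ)‖ = 1 from Circle.norm_coe _, one_mul]
    exact h
  have hy : ‖(fourier 1 y : ℂ) * c‖ ≤ 3 / 4 := by
    rw [norm_mul, show ‖(fourier 1 y : ℂ)‖ = 1 from Circle.norm_coe _, one_mul]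
    exact h
  have h1 : 1 / 4 ≤ ‖1 - (fourier 1 x : ℂ) * c‖ := by
    have := norm_sub_norm_le (1:ℂ) ((fourier 1 x : ℂ) * c)
    rw [norm_one] at this
    linarith
  have h2 : ‖1 - (fourier 1 y : ℂ) * c‖ ≤ 2 := by
    have := norm_sub_le (1:ℂ) ((fourier 1 y : ℂ) * c)
    rw [norm_one] at this
    linarith
  have h3 : 1 / 4 ≤ ‖1 - (fourier 1 y : ℂ) * c‖ := by
    have := norm_sub_norm_le (1:ℂ) ((fourier 1 y : ℂ) * c)
    rw [norm_one] at this
    linarith
  rw [norm_inv, norm_inv]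
  have a1 : (‖1 - (fourier 1 x : ℂ) * c‖)⁻¹ ≤ 4 := by
    rw [inv_le_comm₀ (by linarith) (by norm_num)]
    linarith
  have a2 : 1 / 2 ≤ (‖1 - (fourier 1 y : ℂ) * c‖)⁻¹ := by
    rw [le_inv_comm₀ (by norm_num) (by linarith)]
    linarith
  linarith

/-- the product -/
lemma EO_le (n z : ℕ) (w w' : Om) (h : ∀ i, n ≤ i → w i = w' i) (u : ℝ) :
    ‖EO z w u‖ ≤ 8 ^ n * ‖EO z w' u‖ := by
  unfold EO
  rw [norm_prod, norm_prod]
  have h1 : ∀ p ∈ Sm z, ‖(1 - (fourier 1 (w p) : ℂ) * ((p:ℕ):ℂ) ^ (-(1 / 2 + u * I)))⁻¹‖ ≤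
      (if p < n then 8 else 1) * ‖(1 - (fourier 1 (w' p) : ℂ) * ((p:ℕ):ℂ) ^ (-(1 / 2 + u * I)))⁻¹‖ := by
    intro p hp
    split_ifs with hpn
    · exact fac_le (RZ.Sm_prime z p hp) u _ _
    · rw [h p (not_lt.1 hpn), one_mul]
  refine (Finset.prod_le_prod (fun p _ => norm_nonneg _) h1).trans ?_
  rw [Finset.prod_mul_distrib]
  refine mul_le_mul_of_nonneg_right ?_ (Finset.prod_nonneg fun p _ => norm_nonneg _)
  rw [Finset.prod_ite, Finset.prod_const, Finset.prod_const_one, mul_one]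
  refine pow_le_pow_right₀ (by norm_num) ?_
  have : Finset.filter (fun p => p < n) (Sm z) ⊆ Finset.range n := by
    intro p hp
    exact Finset.mem_range.2 (Finset.mem_filter.1 hp).2
  exact (Finset.card_le_card this).trans (Finset.card_range n).le

lemma rz_nonneg (α : ℝ) (z : ℕ) (w : Om) (u : ℝ) : 0 ≤ rz α z w u := by
  unfold rz
  exact div_nonneg (Real.rpow_nonneg (norm_nonneg _) _)
    (integral_nonneg fun w' => Real.rpow_nonneg (norm_nonneg _) _)

lemma rz_le {α : ℝ} (hα : 0 < α) (n z : ℕ) (w w' : Om) (h : ∀ i, n ≤ i → w i = w' i) (u : ℝ) :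
    rz α z w u ≤ ((8:ℝ) ^ n) ^ (2 * α) * rz α z w' u := by
  unfold rz
  rw [← mul_div_assoc, ← Real.mul_rpow (by positivity) (norm_nonneg _)]
  refine div_le_div_of_nonneg_right ?_ (integral_nonneg fun w' => Real.rpow_nonneg (norm_nonneg _) _)
  exact Real.rpow_le_rpow (norm_nonneg _) (EO_le n z w w' h u) (by positivity)

lemma rz_cont1 {α : ℝ} (hα : 0 < α) (z : ℕ) (w : Om) : Continuous (rz α z w) := by
  have e : rz α z w = fun u : ℝ => M0 α (Sm z) ((fun p : Sm z => w p) + pt (Sm z) u) := by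
    funext u
    exact RZ.main α hα z w u
  rw [e]
  exact (RZ.M0_cont α (Sm z) (RZ.Sm_prime z)).comp (continuous_const.add (LAM.pt_cont (Sm z)))

/-- the mass at level `z` -/
noncomputable def X (α : ℝ) (z : ℕ) (w : Om) : ℝ := ∫ x in (0:ℝ)..1, (fun _ : ℝ => (1:ℝ)) x * rz α z w x

lemma X_nonneg (α : ℝ) (z : ℕ) (w : Om) : 0 ≤ X α z w := by
  unfold X
  refine intervalIntegral.integral_nonneg zero_le_one fun x _ => ?_
  simp only [one_mul]
  exact rz_nonneg α z w x

lemma X_le {α : ℝ} (hα : 0 < α) (n z : ℕ) (w w' : Om) (h : ∀ i, n ≤ i → w i = w' i) :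
    X α z w ≤ ((8:ℝ) ^ n) ^ (2 * α) * X α z w' := by
  unfold X
  rw [← intervalIntegral.integral_const_mul]
  refine intervalIntegral.integral_mono_on zero_le_one ?_ ?_ fun x _ => ?_
  · exact (continuous_const.mul (rz_cont1 hα z w)).intervalIntegrable _ _
  · exact (continuous_const.mul (continuous_const.mul (rz_cont1 hα z w'))).intervalIntegrable _ _
  · simp only [one_mul]
    exact rz_le hα n z w w' h x

lemma X_eq {α : ℝ} (hα : 0 < α) (z : ℕ) : X α z = fun w => LAM.Psi α (fun _ => 1) z (fun p : Sm z => w p) := by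
  funext w
  exact LAM.Psi_rz RZ.main hα (fun _ => 1) z w

lemma X_int {α : ℝ} (hα : 0 < α) (z : ℕ) : Integrable (X α z) PO := by
  rw [X_eq hα]
  exact LAM.Psi_integrable α continuous_const z

lemma X_meas {α : ℝ} (hα : 0 < α) (z : ℕ) : Measurable (X α z) := by
  rw [X_eq hα]
  exact (LAM.Psi_cont α continuous_const z).measurable.comp (RZ.restr_mp (Sm z)).measurable

/-! ### the tail event -/

/-- the projection to the coordinates from `n` on -/
noncomputable def tl (n : ℕ) (w : Om) : Om := fun i => if i < n then 0 else w i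

lemma tl_meas (n : ℕ) :
    Measurable[⨆ i ≥ n, MeasurableSpace.comap (fun w : Om => w i) inferInstance] (tl n) := by
  refine @measurable_pi_lambda _ _ _ (⨆ i ≥ n, MeasurableSpace.comap (fun w : Om => w i) inferInstance) _ _
    fun i => ?_
  by_cases hi : i < n
  · have e : (fun w : Om => tl n w i) = fun _ => 0 := by
      funext w
      simp [tl, hi]
    rw [e]
    exact @measurable_const _ _ _ (⨆ i ≥ n, MeasurableSpace.comap (fun w : Om => w i) inferInstance) _
  · have e : (fun w : Om => tl n w i) = fun w => w i := by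
      funext w
      simp [tl, hi]
    rw [e]
    refine Measurable.mono (comap_measurable (fun w : Om => w i)) ?_ le_rfl
    exact le_iSup₂_of_le i (not_lt.1 hi) le_rfl

/-- 0-1 law -/
lemma zero_one (A : Set Om) (hA : MeasurableSet A)
    (h : ∀ n (w w' : Om), (∀ i, n ≤ i → w i = w' i) → w ∈ A → w' ∈ A) : PO A = 0 ∨ PO A = 1 := by
  have hind : ProbabilityTheory.iIndep (fun i : ℕ => MeasurableSpace.comap (fun w : Om => w i) inferInstance) PO := by
    have := ProbabilityTheory.iIndepFun_infinitePi (P := fun _ : ℕ => (AddCircle.haarAddCircle (T := (1:ℝ))))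
      (X := fun _ ω => ω) (fun _ => measurable_id)
    exact this
  refine ProbabilityTheory.measure_zero_or_one_of_measurableSet_limsup_atTop
    (fun n => (measurable_pi_apply n).comap_le) hind ?_
  rw [limsup_eq_iInf_iSup_of_nat]
  rw [MeasurableSpace.measurableSet_iInf]
  intro n
  have e : A = tl n ⁻¹' A := by
    ext w
    constructor
    · exact h n w (tl n w) fun i hi => by simp [tl, not_lt.2 hi]
    · exact h n (tl n w) w fun i hi => by simp [tl, not_lt.2 hi]
  rw [e]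
  exact tl_meas n hA

instance : IsProbabilityMeasure PO := by unfold PO; infer_instance

/-- (POS) -/
theorem main : Pool.Agent.V5helper51.HM.S_POS := by
  intro α hα _ Λ hΛ
  obtain ⟨hm, hi, hmean, hlim⟩ := hΛ (fun _ => 1) continuous_const
  set L : Om → ℝ := Λ (fun _ => 1) with hL
  have hlim' : Tendsto (fun z => ∫ w, |X α z w - L w| ∂PO) atTop (𝓝 0) := hlim
  have m1 : TendstoInMeasure PO (X α) atTop L := by
    refine tendstoInMeasure_of_tendsto_eLpNorm (p := 1) one_ne_zero (fun z => (X_int hα z).aestronglyMeasurable)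
      hi.aestronglyMeasurable ?_
    have e1 : ∀ z, eLpNorm (X α z - L) 1 PO = ENNReal.ofReal (∫ w, |X α z w - L w| ∂PO) := by
      intro z
      rw [eLpNorm_one_eq_lintegral_enorm, ← ofReal_integral_norm_eq_lintegral_enorm ((X_int hα z).sub hi)]
      rfl
    simp_rw [e1]
    have := (ENNReal.continuous_ofReal.tendsto 0).comp hlim'
    rw [ENNReal.ofReal_zero] at this
    exact this
  obtain ⟨ns, -, hns⟩ := m1.exists_seq_tendsto_ae
  set A : Set Om := {w | Tendsto (fun k => X α (ns k) w) atTop (𝓝 0)} with hA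
  have hAm : MeasurableSet A := measurableSet_tendsto (𝓝 0) fun k => X_meas hα (ns k)
  have h01 : PO A = 0 ∨ PO A = 1 := by
    refine zero_one A hAm fun n w w' hw hwA => ?_
    have h1 : Tendsto (fun k => ((8:ℝ) ^ n) ^ (2 * α) * X α (ns k) w) atTop (𝓝 0) := by
      have := Tendsto.const_mul (((8:ℝ) ^ n) ^ (2 * α)) hwA
      rwa [mul_zero] at this
    exact squeeze_zero (fun k => X_nonneg _ _ _) (fun k => X_le hα n (ns k) w' w fun i hi => (hw i hi).symm) h1
  have hpos : ∀ᵐ w ∂PO, 0 ≤ L w := by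
    filter_upwards [hns] with w hw
    exact ge_of_tendsto' hw fun k => X_nonneg _ _ _
  rcases h01 with h0 | h1
  · have h2 : ∀ᵐ w ∂PO, w ∉ A := by
      rw [ae_iff]
      simpa using h0
    filter_upwards [h2, hns, hpos] with w hw1 hw2 hw3
    refine lt_of_le_of_ne hw3 fun h => hw1 ?_
    show Tendsto (fun k => X α (ns k) w) atTop (𝓝 0)
    rw [h]
    exact hw2
  · exfalso
    have h2 : ∀ᵐ w ∂PO, w ∈ A := by
      rw [← prob_compl_eq_zero_iff hAm] at h1
      rw [ae_iff]
      exact h1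
    have h3 : L =ᵐ[PO] fun _ => 0 := by
      filter_upwards [h2, hns] with w hw1 hw2
      exact tendsto_nhds_unique hw2 hw1
    rw [integral_congr_ae h3] at hmean
    simp at hmean

end Pool.Agent.V5helper24.HM.POS
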